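import Mathlib

set_option autoImplicit false

/-!
# One-dimensional extensions of a normed space given by functionals, and separated families
-/

open Set Filter Topology Cardinal

namespace Pool.Agent.Y175.SG

universe u w

variable {𝕜 : Type} [RCLike 𝕜] {E : Type w} [NormedAddCommGroup E] [NormedSpace 𝕜 E]

/-- a linear functional of norm at most one -/
structure Fn (𝕜 : Type) [RCLike 𝕜] (E : Type w) [NormedAddCommGroup E] [NormedSpace 𝕜 E] where
  φ : E →ₗ[𝕜] 𝕜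
  le : ∀ z, ‖φ z‖ ≤ ‖z‖

/-- The space `E × 𝕜` with the norm `‖(z, s)‖ = max ‖z‖ (‖φ z‖ + ‖s‖)`. -/
def Ext (_p : Fn 𝕜 E) : Type w := E × 𝕜

noncomputable section

variable (p : Fn 𝕜 E)

instance : AddCommGroup (Ext p) := inferInstanceAs (AddCommGroup (E × 𝕜))
instance : Module 𝕜 (Ext p) := inferInstanceAs (Module 𝕜 (E × 𝕜))
instance : Norm (Ext p) := ⟨fun x => max ‖x.1‖ (‖p.φ x.1‖ + ‖x.2‖)⟩

theorem norm_def (x : Ext p) : ‖x‖ = max ‖x.1‖ (‖p.φ x.1‖ + ‖x.2‖) := rfl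

theorem core : NormedSpace.Core 𝕜 (Ext p) where
  norm_nonneg x := (norm_nonneg x.1).trans (le_max_left _ _)
  norm_smul c x := by
    rw [norm_def, norm_def]
    have h1 : (c • x).1 = c • x.1 := rfl
    have h2 : (c • x).2 = c * x.2 := rfl
    rw [h1, h2, map_smul, smul_eq_mul, norm_smul, norm_mul, norm_mul, ← mul_add,
      mul_max_of_nonneg _ _ (norm_nonneg c)]
  norm_triangle x y := by
    rw [norm_def, norm_def, norm_def]
    have h1 : (x + y).1 = x.1 + y.1 := rfl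
    have h2 : (x + y).2 = x.2 + y.2 := rfl
    rw [h1, h2, map_add]
    apply max_le
    · exact (norm_add_le _ _).trans (add_le_add (le_max_left _ _) (le_max_left _ _))
    · have h3 := norm_add_le (p.φ x.1) (p.φ y.1)
      have h4 := norm_add_le x.2 y.2
      have h5 := le_max_right ‖x.1‖ (‖p.φ x.1‖ + ‖x.2‖)
      have h6 := le_max_right ‖y.1‖ (‖p.φ y.1‖ + ‖y.2‖)
      linarith
  norm_eq_zero_iff x := by
    constructor
    · intro h
      rw [norm_def] at h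
      have h1 : ‖x.1‖ ≤ 0 := h ▸ le_max_left _ _
      have h2 : ‖p.φ x.1‖ + ‖x.2‖ ≤ 0 := h ▸ le_max_right _ _
      have h3 : x.1 = 0 := norm_le_zero_iff.1 h1
      have h4 : x.2 = 0 := by
        have := norm_nonneg (p.φ x.1)
        have h5 : ‖x.2‖ ≤ 0 := by linarith
        exact norm_le_zero_iff.1 h5
      exact Prod.ext h3 h4
    · intro h
      rw [h, norm_def]
      have h1 : (0 : Ext p).1 = 0 := rfl
      have h2 : (0 : Ext p).2 = 0 := rfl
      rw [h1, h2]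
      simp

instance : NormedAddCommGroup (Ext p) := NormedAddCommGroup.ofCore (core p)
instance : NormedSpace 𝕜 (Ext p) := NormedSpace.ofCore (core p)

theorem norm_def' (x : Ext p) : ‖x‖ = max ‖x.1‖ (‖p.φ x.1‖ + ‖x.2‖) := rfl

/-- the isometric inclusion -/
def J : E →ₗᵢ[𝕜] Ext p where
  toFun z := (z, 0)
  map_add' z w := Prod.ext rfl (by
    change (0 : 𝕜) = 0 + 0
    simp)
  map_smul' c z := Prod.ext rfl (by
    change (0 : 𝕜) = c * 0
    simp)
  norm_map' z := by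
    change max ‖z‖ (‖p.φ z‖ + ‖(0 : 𝕜)‖) = ‖z‖
    rw [norm_zero, add_zero]
    exact max_eq_left (p.le z)

/-- the new vector -/
def e3 : Ext p := ((0 : E), (1 : 𝕜))

theorem decomp (x : Ext p) : x = J p x.1 + x.2 • e3 p := by
  refine Prod.ext ?_ ?_
  · change x.1 = x.1 + x.2 • (0 : E)
    simp
  · change x.2 = 0 + x.2 * 1
    simp

theorem range_sup : LinearMap.range (J p).toLinearMap ⊔ Submodule.span 𝕜 {e3 p} = ⊤ := by
  rw [eq_top_iff]
  intro x _
  rw [decomp p x]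
  exact Submodule.add_mem_sup ⟨x.1, rfl⟩ (Submodule.smul_mem _ _ (Submodule.mem_span_singleton_self _))

/-- the extension of a complete space is complete -/
theorem complete [CompleteSpace E] : CompleteSpace (Ext p) := by
  let e : Ext p ≃ₗ[𝕜] (E × 𝕜) := LinearEquiv.refl 𝕜 (E × 𝕜)
  have h1 : ∀ x : Ext p, ‖e x‖ ≤ 1 * ‖x‖ := by
    intro x
    rw [one_mul]
    change max ‖x.1‖ ‖x.2‖ ≤ max ‖x.1‖ (‖p.φ x.1‖ + ‖x.2‖)
    exact max_le_max le_rfl (by linarith [norm_nonneg (p.φ x.1)])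
  have h2 : ∀ y : E × 𝕜, ‖e.symm y‖ ≤ 2 * ‖y‖ := by
    intro y
    change max ‖y.1‖ (‖p.φ y.1‖ + ‖y.2‖) ≤ 2 * max ‖y.1‖ ‖y.2‖
    have h3 := le_max_left ‖y.1‖ ‖y.2‖
    have h4 := le_max_right ‖y.1‖ ‖y.2‖
    have h5 := p.le y.1
    have h6 := norm_nonneg y.1
    exact max_le (by linarith) (by linarith)
  let e' : Ext p ≃L[𝕜] (E × 𝕜) := e.toContinuousLinearEquivOfBounds 1 2 h1 h2
  exact (completeSpace_congr (e := e'.toLinearEquiv.toEquiv) e'.isUniformEmbedding).2 inferInstance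

end

/-- the norming set of a functional -/
def N (p : Fn 𝕜 E) : Set E := {z | ‖p.φ z‖ = ‖z‖}

variable {X : Type u} [NormedAddCommGroup X] [NormedSpace 𝕜 X]

/-- the images of the new vectors for two functionals with different norming sets -/
theorem sep (f : E →ₗᵢ[𝕜] X) (p q : Fn 𝕜 E) (gp : Ext p →ₗᵢ[𝕜] X) (gq : Ext q →ₗᵢ[𝕜] X)
    (hp : ∀ x, gp (J p x) = f x) (hq : ∀ x, gq (J q x) = f x) (z : E) (h1 : z ∈ N p)
    (h2 : z ∉ N q) : 1 ≤ ‖gp (e3 p) - gq (e3 q)‖ := by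
  have key : ∀ (p : Fn 𝕜 E) (g : Ext p →ₗᵢ[𝕜] X) (_ : ∀ x, g (J p x) = f x) (z : E),
      ‖f z + g (e3 p)‖ = max ‖z‖ (‖p.φ z‖ + 1) := by
    intro p g hg z
    rw [← hg z, ← map_add, LinearIsometry.norm_map]
    have : J p z + e3 p = ((z, (1 : 𝕜)) : E × 𝕜) := by
      refine Prod.ext ?_ ?_
      · change z + 0 = z
        simp
      · change (0 : 𝕜) + 1 = 1
        simp
    rw [this]
    change max ‖z‖ (‖p.φ z‖ + ‖(1 : 𝕜)‖) = _
    rw [norm_one]
  have h1' : ‖p.φ z‖ = ‖z‖ := h1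
  have h2' : ‖q.φ z‖ < ‖z‖ := lt_of_le_of_ne (q.le z) h2
  have h3 : 0 < ‖z‖ - ‖q.φ z‖ := by linarith
  set r : ℝ := 1 / (‖z‖ - ‖q.φ z‖) with hr
  have hr0 : 0 < r := by positivity
  have hr1 : r * (‖z‖ - ‖q.φ z‖) = 1 := by rw [hr]; field_simp
  have hnr : ‖((r : ℝ) : 𝕜)‖ = r := by rw [RCLike.norm_ofReal, abs_of_pos hr0]
  have e1 := key p gp hp (((r : ℝ) : 𝕜) • z)
  have e2 := key q gq hq (((r : ℝ) : 𝕜) • z)
  rw [p.φ.map_smul, smul_eq_mul, norm_smul, norm_mul, hnr] at e1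
  rw [q.φ.map_smul, smul_eq_mul, norm_smul, norm_mul, hnr] at e2
  rw [h1', max_eq_right (by linarith)] at e1
  rw [max_eq_left (by nlinarith)] at e2
  have h4 := norm_sub_norm_le (f (((r : ℝ) : 𝕜) • z) + gp (e3 p))
    (f (((r : ℝ) : 𝕜) • z) + gq (e3 q))
  rw [e1, e2, add_sub_add_left_eq_sub] at h4
  linarith

/-- Every dense set has at least as many elements as there are norming sets, if the embedding `f`
extends to all the spaces `Ext p`. -/
theorem norming_le (f : E →ₗᵢ[𝕜] X)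
    (hf : ∀ p : Fn 𝕜 E, ∃ g : Ext p →ₗᵢ[𝕜] X, ∀ x, g (J p x) = f x) (D : Set X) (hD : Dense D) :
    Cardinal.lift.{u} #(Set.range (N : Fn 𝕜 E → Set E)) ≤ Cardinal.lift.{w} #D := by
  choose g hg using hf
  have hsec : ∀ S : Set.range (N : Fn 𝕜 E → Set E), ∃ p : Fn 𝕜 E, N p = S.1 := fun S => S.2
  choose q hq using hsec
  have h1 : ∀ S, ∃ d : D, dist (g (q S) (e3 _)) (d : X) < 1 / 2 := by
    intro S
    obtain ⟨d, hd, hd2⟩ := Metric.dense_iff.1 hD (g (q S) (e3 _)) (1 / 2) (by norm_num)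
    refine ⟨⟨d, hd2⟩, ?_⟩
    rw [dist_comm]
    exact hd
  choose d hd using h1
  refine Cardinal.lift_mk_le_lift_mk_of_injective (f := d) ?_
  intro S S' hSS
  by_contra hne
  have hneS : N (q S) ≠ N (q S') := by
    rw [hq S, hq S']
    exact fun h => hne (Subtype.ext h)
  have h2 : 1 ≤ ‖g (q S) (e3 _) - g (q S') (e3 _)‖ := by
    have h3 : (∃ z, z ∈ N (q S) ∧ z ∉ N (q S')) ∨ ∃ z, z ∈ N (q S') ∧ z ∉ N (q S) := by
      by_contra hcon
      push Not at hcon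
      exact hneS (Set.Subset.antisymm hcon.1 hcon.2)
    rcases h3 with ⟨z, hz1, hz2⟩ | ⟨z, hz1, hz2⟩
    · exact sep f _ _ _ _ (hg _) (hg _) z hz1 hz2
    · rw [norm_sub_rev]
      exact sep f _ _ _ _ (hg _) (hg _) z hz1 hz2
  have h3 := dist_triangle_right (g (q S) (e3 _)) (g (q S') (e3 _)) (d S : X)
  have h4 := hd S
  have h5 := hd S'
  rw [← hSS] at h5
  rw [← dist_eq_norm] at h2
  linarith

end Pool.Agent.Y175.SG
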