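import Pool.Agent.Y175.SG.Ext

set_option autoImplicit false

/-!
# Norming sets of the Euclidean plane and of the spaces `ℓ¹(κ)`
-/

open Set Filter Topology Cardinal

namespace Pool.Agent.Y175.SG

universe u w

variable {𝕜 : Type} [RCLike 𝕜]

/-! ### the Euclidean plane -/

/-- unit vectors of the plane -/
noncomputable def av (𝕜 : Type) [RCLike 𝕜] (t : ℝ) : EuclideanSpace 𝕜 (Fin 2) :=
  !₂[((Real.cos t : ℝ) : 𝕜), ((Real.sin t : ℝ) : 𝕜)]

theorem inner_av (s t : ℝ) : inner 𝕜 (av 𝕜 s) (av 𝕜 t) = ((Real.cos (t - s) : ℝ) : 𝕜) := by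
  simp [av, PiLp.inner_apply, Fin.sum_univ_two, Real.cos_sub]

theorem norm_av (t : ℝ) : ‖av 𝕜 t‖ = 1 := by
  have h1 := inner_self_eq_norm_sq_to_K (𝕜 := 𝕜) (av 𝕜 t)
  rw [inner_av, sub_self, Real.cos_zero] at h1
  have h2 : ‖av 𝕜 t‖ ^ 2 = 1 := by
    have : (((1 : ℝ)) : 𝕜) = ((‖av 𝕜 t‖ ^ 2 : ℝ) : 𝕜) := by rw [h1]; push_cast; rfl
    exact (RCLike.ofReal_inj.1 this).symm
  have h3 := norm_nonneg (av 𝕜 t)
  nlinarith

/-- the functionals of the plane -/
noncomputable def pv (𝕜 : Type) [RCLike 𝕜] (t : ℝ) : Fn 𝕜 (EuclideanSpace 𝕜 (Fin 2)) where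
  φ := innerₛₗ 𝕜 (av 𝕜 t)
  le z := by
    have := norm_inner_le_norm (𝕜 := 𝕜) (av 𝕜 t) z
    rwa [norm_av, one_mul] at this

theorem abs_cos_lt_one {x : ℝ} (h0 : x ≠ 0) (h1 : |x| < 1) : |Real.cos x| < 1 := by
  have hpi := Real.pi_gt_three
  rw [abs_lt]
  rw [abs_lt] at h1
  constructor
  · have := Real.cos_pos_of_mem_Ioo (x := x) ⟨by linarith, by linarith⟩
    linarith
  · have h2 := Real.cos_le_one x
    rcases h2.lt_or_eq with h | h
    · exact h
    · exfalso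
      rw [Real.cos_eq_one_iff_of_lt_of_lt (by linarith) (by linarith)] at h
      exact h0 h

theorem pv_inj (s t : ℝ) (hs : s ∈ Ioo (0 : ℝ) 1) (ht : t ∈ Ioo (0 : ℝ) 1)
    (h : N (pv 𝕜 s) = N (pv 𝕜 t)) : s = t := by
  by_contra hst
  have h1 : av 𝕜 s ∈ N (pv 𝕜 s) := by
    show ‖inner 𝕜 (av 𝕜 s) (av 𝕜 s)‖ = ‖av 𝕜 s‖
    rw [inner_av, sub_self, Real.cos_zero, norm_av, RCLike.norm_ofReal, abs_one]
  rw [h] at h1
  have h2 : ‖inner 𝕜 (av 𝕜 t) (av 𝕜 s)‖ = ‖av 𝕜 s‖ := h1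
  rw [inner_av, norm_av, RCLike.norm_ofReal] at h2
  have h3 := abs_cos_lt_one (x := s - t) (fun h => hst (by linarith)) (by
    rw [abs_lt]
    constructor <;> linarith [hs.1, hs.2, ht.1, ht.2])
  linarith

theorem continuum_le_plane :
    Cardinal.continuum.{0} ≤ #(Set.range (N : Fn 𝕜 (EuclideanSpace 𝕜 (Fin 2)) → Set _)) := by
  have h1 := Cardinal.mk_le_of_injective
    (f := fun x : Ioo (0 : ℝ) 1 =>
      (⟨N (pv 𝕜 x.1), ⟨_, rfl⟩⟩ : Set.range (N : Fn 𝕜 (EuclideanSpace 𝕜 (Fin 2)) → Set _)))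
    (fun s t h => Subtype.ext (pv_inj s.1 t.1 s.2 t.2 (congrArg Subtype.val h)))
  rwa [Cardinal.mk_Ioo_real zero_lt_one] at h1

/-! ### the spaces `ℓ¹` -/

variable {ι : Type w}

/-- the space `ℓ¹` -/
abbrev L1 (𝕜 : Type) [RCLike 𝕜] (ι : Type w) : Type w := lp (fun _ : ι => 𝕜) 1

theorem l1_summable (z : L1 𝕜 ι) : Summable fun i => ‖z i‖ := by
  have := (lp.memℓp z).summable (by norm_num)
  simpa using this

theorem l1_norm (z : L1 𝕜 ι) : ‖z‖ = ∑' i, ‖z i‖ := by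
  rw [lp.norm_eq_tsum_rpow (by norm_num)]
  simp

/-- the functional given by signs -/
noncomputable def sg (ε : ι → 𝕜) (hε : ∀ i, ‖ε i‖ = 1) : Fn 𝕜 (L1 𝕜 ι) where
  φ :=
    { toFun := fun z => ∑' i, ε i * z i
      map_add' := by
        intro y z
        have hs : ∀ z : L1 𝕜 ι, Summable fun i => ε i * z i := fun z =>
          Summable.of_norm (by simpa [hε] using l1_summable z)
        rw [← (hs y).tsum_add (hs z)]
        refine tsum_congr fun i => ?_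
        rw [lp.coeFn_add, Pi.add_apply, mul_add]
      map_smul' := by
        intro c z
        rw [RingHom.id_apply, smul_eq_mul, ← tsum_mul_left]
        refine tsum_congr fun i => ?_
        rw [lp.coeFn_smul, Pi.smul_apply, smul_eq_mul]
        ring }
  le z := by
    show ‖∑' i, ε i * z i‖ ≤ ‖z‖
    rw [l1_norm]
    refine (norm_tsum_le_tsum_norm (by simpa [hε] using l1_summable z)).trans (le_of_eq ?_)
    refine tsum_congr fun i => ?_
    rw [norm_mul, hε, one_mul]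

theorem sg_single [DecidableEq ι] (ε : ι → 𝕜) (hε : ∀ i, ‖ε i‖ = 1) (i : ι) (c : 𝕜) :
    (sg ε hε).φ (lp.single 1 i c) = ε i * c := by
  show ∑' j, ε j * (lp.single 1 i c : L1 𝕜 ι) j = ε i * c
  rw [tsum_eq_single i]
  · rw [lp.single_apply_self]
  · intro j hj
    rw [lp.single_apply_ne _ _ _ hj, mul_zero]

/-- `ℓ¹(ι)` is generated by the unit vectors -/
theorem l1_dense [DecidableEq ι] :
    Dense (Submodule.span 𝕜 (Set.range fun i : ι => (lp.single 1 i (1 : 𝕜) : L1 𝕜 ι)) :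
      Set (L1 𝕜 ι)) := by
  intro z
  have h := lp.hasSum_single (p := 1) (by norm_num) z
  refine mem_closure_of_tendsto h (Filter.Eventually.of_forall fun s => ?_)
  refine Submodule.sum_mem _ fun i _ => ?_
  have : (lp.single 1 i (z i) : L1 𝕜 ι) = z i • lp.single 1 i (1 : 𝕜) := by
    rw [← lp.single_smul, smul_eq_mul, mul_one]
  rw [this]
  exact Submodule.smul_mem _ _ (Submodule.subset_span ⟨i, rfl⟩)

open Classical in
/-- the signs of a set -/
noncomputable def sgn (𝕜 : Type) [RCLike 𝕜] (A : Set ι) : Option ι → 𝕜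
  | none => 1
  | some i => if i ∈ A then 1 else -1

theorem norm_sgn (A : Set ι) (i : Option ι) : ‖sgn 𝕜 A i‖ = 1 := by
  classical
  cases i with
  | none => simp [sgn]
  | some i =>
    by_cases h : i ∈ A <;> simp [sgn, h]

theorem sgn_inj (A B : Set ι) (h : N (sg (sgn 𝕜 A) (norm_sgn A)) = N (sg (sgn 𝕜 B) (norm_sgn B))) :
    A = B := by
  classical
  by_contra hne
  obtain ⟨i, hi⟩ : ∃ i, ¬ (i ∈ A ↔ i ∈ B) := by
    by_contra hcon
    push Not at hcon
    exact hne (Set.ext hcon)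
  have hAB : sgn 𝕜 A (some i) * sgn 𝕜 A (some i) = 1 ∧ sgn 𝕜 B (some i) * sgn 𝕜 A (some i) = -1 := by
    unfold sgn
    by_cases h1 : i ∈ A
    · have h2 : i ∉ B := fun h => hi ⟨fun _ => h, fun _ => h1⟩
      simp [h1, h2]
    · have h2 : i ∈ B := by
        by_contra h2
        exact hi ⟨fun h => absurd h h1, fun h => absurd h h2⟩
      simp [h1, h2]
  set z : L1 𝕜 (Option ι) := lp.single 1 none (1 : 𝕜) + lp.single 1 (some i) (sgn 𝕜 A (some i))
    with hz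
  have h1 : (sg (sgn 𝕜 A) (norm_sgn A)).φ z = 2 := by
    rw [hz, map_add, sg_single, sg_single, hAB.1]
    show (1 : 𝕜) * 1 + 1 = 2
    norm_num
  have h2 : (sg (sgn 𝕜 B) (norm_sgn B)).φ z = 0 := by
    rw [hz, map_add, sg_single, sg_single, hAB.2]
    show (1 : 𝕜) * 1 + -1 = 0
    norm_num
  have hn : ‖z‖ = 2 := by
    apply le_antisymm
    · rw [hz]
      refine (norm_add_le _ _).trans ?_
      rw [lp.norm_single (by norm_num), lp.norm_single (by norm_num), norm_one, norm_sgn]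
      norm_num
    · have := (sg (sgn 𝕜 A) (norm_sgn A)).le z
      rw [h1] at this
      simpa using this
  have h3 : z ∈ N (sg (sgn 𝕜 A) (norm_sgn A)) := by
    show ‖(sg (sgn 𝕜 A) (norm_sgn A)).φ z‖ = ‖z‖
    rw [h1, hn]
    simp
  rw [h] at h3
  have h4 : ‖(sg (sgn 𝕜 B) (norm_sgn B)).φ z‖ = ‖z‖ := h3
  rw [h2, hn, norm_zero] at h4
  norm_num at h4

theorem two_pow_le_l1 (ι : Type w) :
    2 ^ #ι ≤ #(Set.range (N : Fn 𝕜 (L1 𝕜 (Option ι)) → Set _)) := by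
  have h1 := Cardinal.mk_le_of_injective
    (f := fun A : Set ι => (⟨N (sg (sgn 𝕜 A) (norm_sgn A)), ⟨_, rfl⟩⟩ :
      Set.range (N : Fn 𝕜 (L1 𝕜 (Option ι)) → Set _)))
    (fun A B h => sgn_inj A B (congrArg Subtype.val h))
  rwa [Cardinal.mk_set] at h1

end Pool.Agent.Y175.SG
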